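import Pool.Agent.MP_aa180b_lc.H48.Pos

set_option autoImplicit false

namespace Pool.Agent.Results.MP_aa180b_lc.AnalyticCounterexample

/-- The question has a negative answer when the invariant set is allowed to be analytic. -/
theorem result :
    ∃ B : Set (ℕ → ℕ), MeasureTheory.AnalyticSet B ∧ (∀ x ∈ B, StrictMono x) ∧
      (∀ x y : ℕ → ℕ, StrictMono x → StrictMono y →
        (∃ m n : ℕ, ∀ k : ℕ, x (m + k) = y (n + k)) → (x ∈ B ↔ y ∈ B)) ∧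
      (¬ ∃ h : (ℕ → ℕ) → ℝ, Measurable h ∧
          (∀ x ∈ B, ∀ y ∈ B, (∃ m n : ℕ, ∀ k : ℕ, x (m + k) = y (n + k)) → h x = h y) ∧
          ∀ x ∈ B, ∃ n : ℕ, ∃ c : (ℕ → ℕ) → Fin n, Measurable c ∧
            ∀ y ∈ B, h y = h x → c (y ∘ Nat.succ) ≠ c y) ∧
      ¬ ∃ φ : (ℕ → ℕ) → (ℕ → ℕ), Measurable φ ∧
        ∀ x : ℕ → ℕ, StrictMono x → φ x ∈ B ∧
          (φ (x ∘ Nat.succ) = φ x ∘ Nat.succ ∨ φ x = φ (x ∘ Nat.succ) ∘ Nat.succ) := by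
  open Pool.Agent.MP_aa180b_lc.H48 in
  refine ⟨A, analytic_A, fun x hx => hx.1, fun x y hx hy h => ⟨A_invariant x y hy h,
    A_invariant y x hx ?_⟩, positive, no_hom⟩
  obtain ⟨m, n, h⟩ := h
  exact ⟨n, m, fun k => (h k).symm⟩

end Pool.Agent.Results.MP_aa180b_lc.AnalyticCounterexample
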