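import Pool.Agent.MP_aa180b_lc.H22.Recode

set_option autoImplicit false

namespace Pool.Agent.Results.MP_aa180b_lc.PowerShift

/-- If a Borel tail invariant set `B` has no smooth decomposition into pieces on which the
`r`-fold shift has a finite Borel colouring, then for every `k ≥ 2` there is a Borel map into `B`
turning the shift into the `r * k`-fold shift.  For `r = 1` the hypotheses are those of Q1, whose
conclusion would be the case `k = 1`. -/
theorem result :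
    ∀ r k : ℕ, 1 ≤ r → 2 ≤ k →
    ∀ B : Set (ℕ → ℕ), MeasurableSet B → (∀ x ∈ B, StrictMono x) →
      (∀ x y : ℕ → ℕ, StrictMono x → StrictMono y →
        (∃ m n : ℕ, ∀ i : ℕ, x (m + i) = y (n + i)) → (x ∈ B ↔ y ∈ B)) →
      (¬ ∃ h : (ℕ → ℕ) → ℝ, Measurable h ∧
          (∀ x ∈ B, ∀ y ∈ B, (∃ m n : ℕ, ∀ i : ℕ, x (m + i) = y (n + i)) → h x = h y) ∧
          ∀ x ∈ B, ∃ n : ℕ, ∃ c : (ℕ → ℕ) → Fin n, Measurable c ∧
            ∀ y ∈ B, h y = h x → c (fun i => y (i + r)) ≠ c y) →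
      ∃ φ : (ℕ → ℕ) → (ℕ → ℕ), Measurable φ ∧
        ∀ x : ℕ → ℕ, StrictMono x → φ x ∈ B ∧
          φ (x ∘ Nat.succ) = fun i => φ x (i + r * k) := by
  intro r k hr hk B hB hs hi hn
  refine (Pool.Agent.MP_aa180b_lc.H22.main hr hk hB hs hi).resolve_left ?_
  rintro ⟨h, h1, h2, h3⟩
  refine hn ⟨h, h1, fun x _ y _ hxy => h2 x y hxy, fun x hx => ?_⟩
  obtain ⟨c, h4, h5⟩ := h3 x hx
  exact ⟨3, c, h4, fun y _ hy => h5 y hy⟩

end Pool.Agent.Results.MP_aa180b_lc.PowerShift
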