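import Pool.Agent.MP_aa180b_lc.H22.Converse

set_option autoImplicit false

namespace Pool.Agent.Results.MP_aa180b_lc.PowersDichotomy

/-- A Borel tail invariant set `B` has no smooth decomposition into pieces on which all powers of
the shift have finite Borel colourings if and only if some Borel map into `B` turns the shift into
a power of the shift. -/
theorem result :
    ∀ B : Set (ℕ → ℕ), MeasurableSet B → (∀ x ∈ B, StrictMono x) →
      (∀ x y : ℕ → ℕ, StrictMono x → StrictMono y →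
        (∃ m n : ℕ, ∀ i : ℕ, x (m + i) = y (n + i)) → (x ∈ B ↔ y ∈ B)) →
      ((¬ ∃ h : (ℕ → ℕ) → ℝ, Measurable h ∧
          (∀ x ∈ B, ∀ y ∈ B, (∃ m n : ℕ, ∀ i : ℕ, x (m + i) = y (n + i)) → h x = h y) ∧
          ∀ x ∈ B, ∀ r : ℕ, 1 ≤ r → ∃ n : ℕ, ∃ c : (ℕ → ℕ) → Fin n, Measurable c ∧
            ∀ y ∈ B, h y = h x → c (fun i => y (i + r)) ≠ c y) ↔
      ∃ k : ℕ, 1 ≤ k ∧ ∃ φ : (ℕ → ℕ) → (ℕ → ℕ), Measurable φ ∧
        ∀ x : ℕ → ℕ, StrictMono x → φ x ∈ B ∧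
          φ (x ∘ Nat.succ) = fun i => φ x (i + k)) := by
  open Pool.Agent.MP_aa180b_lc.H22 in
  intro B hB hs hi
  constructor
  · intro hn
    refine (dichotomy hB hs hi).resolve_left ?_
    rintro ⟨h, h1, h2, h3⟩
    refine hn ⟨h, h1, fun x _ y _ hxy => h2 x y hxy, fun x hx r hr => ?_⟩
    obtain ⟨c, h4, h5⟩ := h3 x hx r hr
    exact ⟨3, c, h4, fun y _ hy => h5 y hy⟩
  · rintro ⟨k, hk, φ, h1, h2⟩ ⟨h, h3, h4, h5⟩
    exact not_smooth_of_hom h1 h2 ⟨h, h3, h4, fun x hx => h5 x hx k hk⟩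

end Pool.Agent.Results.MP_aa180b_lc.PowersDichotomy
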