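import Pool.Agent.MP_aa180b_lc.H22.Converse

set_option autoImplicit false

namespace Pool.Agent.Results.MP_aa180b_lc.SquareCriterion

/-- The shift graph has a Borel homomorphism into its restriction to a Borel tail invariant set
`B` if and only if the interleaved square `C` of `B` has no smooth decomposition into pieces of
finite Borel chromatic number. -/
theorem result :
    ∀ B C : Set (ℕ → ℕ), MeasurableSet B → (∀ x ∈ B, StrictMono x) →
      (∀ x y : ℕ → ℕ, StrictMono x → StrictMono y →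
        (∃ m n : ℕ, ∀ k : ℕ, x (m + k) = y (n + k)) → (x ∈ B ↔ y ∈ B)) →
      (∀ w : ℕ → ℕ, w ∈ C ↔
        StrictMono w ∧ (fun i => w (2 * i)) ∈ B ∧ (fun i => w (2 * i + 1)) ∈ B) →
      ((∃ φ : (ℕ → ℕ) → (ℕ → ℕ), Measurable φ ∧
        ∀ x : ℕ → ℕ, StrictMono x → φ x ∈ B ∧
          (φ (x ∘ Nat.succ) = φ x ∘ Nat.succ ∨ φ x = φ (x ∘ Nat.succ) ∘ Nat.succ)) ↔
      ¬ ∃ h : (ℕ → ℕ) → ℝ, Measurable h ∧
          (∀ x ∈ C, ∀ y ∈ C, (∃ m n : ℕ, ∀ k : ℕ, x (m + k) = y (n + k)) → h x = h y) ∧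
          ∀ x ∈ C, ∃ n : ℕ, ∃ c : (ℕ → ℕ) → Fin n, Measurable c ∧
            ∀ y ∈ C, h y = h x → c (y ∘ Nat.succ) ≠ c y) := by
  open Pool.Agent.MP_aa180b_lc.H22 in
  intro B C hB hs hi hC
  obtain rfl : C = Sq B := Set.ext hC
  refine ⟨fun ⟨φ, h1, h2⟩ => sq_not_smooth hs h1 h2, fun hn => ?_⟩
  obtain ⟨φ, h1, h2⟩ := (main (r := 1) le_rfl le_rfl (measurable_sq hB) (fun _ hx => hx.1)
    fun x y hx hy h => ⟨sq_inv hi x y hy h, sq_inv hi y x hx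
      (by obtain ⟨m, n, h⟩ := h; exact ⟨n, m, fun k => (h k).symm⟩)⟩).resolve_left (by
    rintro ⟨h, h1, h2, h3⟩
    refine hn ⟨h, h1, fun x _ y _ hxy => h2 x y hxy, fun x hx => ?_⟩
    obtain ⟨c, h4, h5⟩ := h3 x hx
    exact ⟨3, c, h4, fun y _ hy => h5 y hy⟩)
  refine ⟨fun x i => φ x (2 * i), measurable_pi_lambda _ fun i =>
    (measurable_pi_apply _).comp h1, fun x hx => ⟨(h2 x hx).1.2.1, Or.inl ?_⟩⟩
  funext i
  exact congrFun (h2 x hx).2 (2 * i)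

end Pool.Agent.Results.MP_aa180b_lc.SquareCriterion
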